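import Pool.Agent.H499R2.LT.R1
import Pool.Agent.H499R2.NDCor
import Pool.Agent.R344.TH.G

/-! Predecessor sets and merging classes of the `3x+1` map on the integers: densities, uniform
anti-concentration, the densities along a trajectory. -/

set_option autoImplicit false

namespace Pool.Agent.U59.DIV

open Filter Topology

open Pool.Agent.H499R2.ND (Td Mg)

/-- counting function of the integers of sign `s` -/
noncomputable def ct (s : ℤ) (S : Set ℤ) (N : ℕ) : ℝ := ({n : ℤ | 0 < s * n ∧ s * n ≤ N ∧ n ∈ S}.ncard : ℝ)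

/-- natural density among the integers of sign `s` -/
def HasD (s : ℤ) (S : Set ℤ) (l : ℝ) : Prop := Tendsto (fun N : ℕ => ct s S N / N) atTop (𝓝 l)

/-- `a` is a term of the trajectory of `x` -/
def Rch (x a : ℤ) : Prop := ∃ k : ℕ, (Td 1)^[k] x = a

/-- the integers whose trajectory contains `a` -/
def Pd (a : ℤ) : Set ℤ := {x | Rch x a}

/-- divergent trajectory -/
def Dv (n : ℤ) : Prop := Tendsto (fun k : ℕ => |(Td 1)^[k] n|) atTop atTop

theorem ss {s : ℤ} (hs : s = 1 ∨ s = -1) (x : ℤ) : s * (s * x) = x := by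
  rcases hs with rfl | rfl <;> ring

theorem win_fin {s : ℤ} (hs : s = 1 ∨ s = -1) (N : ℕ) (S : Set ℤ) :
    {n : ℤ | 0 < s * n ∧ s * n ≤ N ∧ n ∈ S}.Finite := by
  apply (Set.finite_Icc (-(N : ℤ)) N).subset
  rintro n ⟨h1, h2, _⟩
  rw [Set.mem_Icc]
  rcases hs with rfl | rfl <;> constructor <;> omega

theorem ct_nonneg (s : ℤ) (S : Set ℤ) (N : ℕ) : 0 ≤ ct s S N := by unfold ct; positivity

theorem ct_mono {s : ℤ} (hs : s = 1 ∨ s = -1) {S S' : Set ℤ} (N : ℕ)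
    (h : ∀ n : ℤ, 0 < s * n → n ∈ S → n ∈ S') : ct s S N ≤ ct s S' N := by
  unfold ct
  have : {n : ℤ | 0 < s * n ∧ s * n ≤ N ∧ n ∈ S} ⊆ {n : ℤ | 0 < s * n ∧ s * n ≤ N ∧ n ∈ S'} :=
    fun n hn => ⟨hn.1, hn.2.1, h n hn.1 hn.2.2⟩
  exact_mod_cast Set.ncard_le_ncard this (win_fin hs N S')

theorem ct_le {s : ℤ} (hs : s = 1 ∨ s = -1) (S : Set ℤ) (N : ℕ) : ct s S N ≤ N := by
  unfold ct
  have h1 : {n : ℤ | 0 < s * n ∧ s * n ≤ N ∧ n ∈ S} ⊆ (fun x : ℤ => s * x) '' (Set.Icc (1 : ℤ) N) := by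
    rintro n ⟨h1, h2, _⟩
    exact ⟨s * n, ⟨by omega, h2⟩, ss hs n⟩
  have h2 := (Set.ncard_le_ncard h1 ((Set.finite_Icc _ _).image _)).trans
    (Set.ncard_image_le (Set.finite_Icc (1 : ℤ) N))
  have h3 : (Set.Icc (1 : ℤ) N).ncard = N := by
    rw [← Finset.coe_Icc, Set.ncard_coe_finset, Int.card_Icc]
    omega
  rw [h3] at h2
  exact_mod_cast h2

theorem ct_union {s : ℤ} (hs : s = 1 ∨ s = -1) {S S' : Set ℤ} (N : ℕ) (h : Disjoint S S') :
    ct s (S ∪ S') N = ct s S N + ct s S' N := by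
  unfold ct
  have e : {n : ℤ | 0 < s * n ∧ s * n ≤ N ∧ n ∈ S ∪ S'} =
      {n : ℤ | 0 < s * n ∧ s * n ≤ N ∧ n ∈ S} ∪ {n : ℤ | 0 < s * n ∧ s * n ≤ N ∧ n ∈ S'} := by
    ext n
    simp only [Set.mem_ofPred_eq, Set.mem_union]
    tauto
  rw [e, Set.ncard_union_eq _ (win_fin hs N S) (win_fin hs N S')]
  · push_cast; rfl
  · rw [Set.disjoint_left] at h ⊢
    intro n h1 h2
    exact h h1.2.2 h2.2.2

theorem HasD.le {s : ℤ} (hs : s = 1 ∨ s = -1) {S S' : Set ℤ} {l l' : ℝ} (h : HasD s S l)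
    (h' : HasD s S' l') (hss : ∀ n : ℤ, 0 < s * n → n ∈ S → n ∈ S') : l ≤ l' := by
  refine le_of_tendsto_of_tendsto' h h' fun N => ?_
  exact div_le_div_of_nonneg_right (ct_mono hs N hss) (Nat.cast_nonneg N)

theorem HasD.nonneg {s : ℤ} {S : Set ℤ} {l : ℝ} (h : HasD s S l) : 0 ≤ l :=
  ge_of_tendsto' h fun N => div_nonneg (ct_nonneg s S N) (Nat.cast_nonneg N)

theorem HasD.unique {s : ℤ} {S : Set ℤ} {l l' : ℝ} (h : HasD s S l) (h' : HasD s S l') : l = l' :=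
  tendsto_nhds_unique h h'

theorem HasD.diff {s : ℤ} (hs : s = 1 ∨ s = -1) {S S' : Set ℤ} {l l' : ℝ} (h : HasD s S l)
    (h' : HasD s S' l') (hss : S ⊆ S') : HasD s (S' \ S) (l' - l) := by
  refine (Tendsto.sub h' h).congr fun N => ?_
  have h1 := ct_union hs N (S := S) (S' := S' \ S) Set.disjoint_sdiff_right
  rw [Set.union_sdiff_cancel hss] at h1
  rw [h1]
  ring

/-- conversion from a property of the positive integers -/
theorem ct_nat {s : ℤ} (hs : s = 1 ∨ s = -1) (S : Set ℤ) (N : ℕ) :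
    ct s S N = ({n : ℕ | 1 ≤ n ∧ n ≤ N ∧ s * (n : ℤ) ∈ S}.ncard : ℝ) := by
  unfold ct
  have e : {n : ℤ | 0 < s * n ∧ s * n ≤ N ∧ n ∈ S} =
      (fun n : ℕ => s * (n : ℤ)) '' {n : ℕ | 1 ≤ n ∧ n ≤ N ∧ s * (n : ℤ) ∈ S} := by
    ext x
    rw [Set.mem_image]
    constructor
    · rintro ⟨h1, h2, h3⟩
      have h4 : (((s * x).toNat : ℕ) : ℤ) = s * x := Int.toNat_of_nonneg h1.le
      refine ⟨(s * x).toNat, ⟨by omega, by omega, ?_⟩, ?_⟩
      · rw [h4, ss hs]; exact h3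
      · rw [h4, ss hs]
    · rintro ⟨n, ⟨h1, h2, h3⟩, rfl⟩
      refine ⟨?_, ?_, h3⟩
      · rw [ss hs]; omega
      · rw [ss hs]; omega
  rw [e, Set.ncard_image_of_injective]
  intro a b hab
  simp only at hab
  rcases hs with rfl | rfl <;> omega

/-! ### reaching -/

theorem Rch.refl (x : ℤ) : Rch x x := ⟨0, rfl⟩

theorem Rch.trans {x a b : ℤ} (h : Rch x a) (h' : Rch a b) : Rch x b := by
  obtain ⟨k, rfl⟩ := h
  obtain ⟨l, rfl⟩ := h'
  exact ⟨l + k, Function.iterate_add_apply _ _ _ _⟩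

theorem Rch.iter (x : ℤ) (k : ℕ) : Rch x ((Td 1)^[k] x) := ⟨k, rfl⟩

theorem Rch.sign {s : ℤ} (hs : s = 1 ∨ s = -1) {x a : ℤ} (h : Rch x a) : 0 < s * x ↔ 0 < s * a := by
  obtain ⟨k, rfl⟩ := h
  exact Pool.Agent.H499R2.ND.Td_one_iter_sign hs x k

theorem Rch.mg {x a : ℤ} (h : Rch x a) : x ∈ Mg (Td 1) a := by
  obtain ⟨k, h⟩ := h; exact ⟨k, 0, h⟩

theorem Pd_mono (a : ℤ) {k l : ℕ} (h : k ≤ l) : Pd ((Td 1)^[k] a) ⊆ Pd ((Td 1)^[l] a) := by
  intro x hx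
  refine Rch.trans hx ⟨l - k, ?_⟩
  rw [← Function.iterate_add_apply]
  congr 2
  omega

theorem Mg_eq {a b : ℤ} (h : b ∈ Mg (Td 1) a) : Mg (Td 1) b = Mg (Td 1) a := by
  ext x
  exact ⟨fun hx => Pool.Agent.H499R2.ND.Mg_trans hx h,
    fun hx => Pool.Agent.H499R2.ND.Mg_trans hx (Pool.Agent.H499R2.ND.Mg_symm h)⟩

theorem Mg_one_sign {s : ℤ} (hs : s = 1 ∨ s = -1) {a b : ℤ} (h : b ∈ Mg (Td 1) a) :
    0 < s * b ↔ 0 < s * a := by
  obtain ⟨i, j, hij⟩ := h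
  rw [Pool.Agent.H499R2.ND.Td_one_iter_sign hs b i, hij, ← Pool.Agent.H499R2.ND.Td_one_iter_sign hs a j]

/-! ### densities -/

theorem densities {s : ℤ} (hs : s = 1 ∨ s = -1) : ∃ D : ℤ → ℝ, ∀ a : ℤ, HasD s (Pd a) (D a) ∧
    (0 < s * a → ¬ (3 : ℤ) ∣ a → 0 < D a) := by
  have key : ∀ a : ℤ, ∃ δ : ℝ, HasD s (Pd a) δ ∧ (0 < s * a → ¬ (3 : ℤ) ∣ a → 0 < δ) := by
    intro a
    obtain ⟨δ, c, _, _, _, h1, h2, _, _⟩ := Pool.Agent.H499R2.LT.laws_side (d := 1)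
      odd_one (by decide) hs {a}
    refine ⟨δ, ?_, fun ha h3 => h1 ⟨a, Finset.mem_singleton_self a, ha, h3⟩⟩
    refine Tendsto.congr (fun N => ?_) h2
    rw [ct_nat hs]
    have e : {n : ℕ | 1 ≤ n ∧ n ≤ N ∧ ∃ k : ℕ, (Td 1)^[k] (s * (n : ℤ)) ∈ ({a} : Finset ℤ)} =
        {n : ℕ | 1 ≤ n ∧ n ≤ N ∧ s * (n : ℤ) ∈ Pd a} := by
      ext n
      simp only [Set.mem_ofPred_eq, Finset.mem_singleton]
      rfl
    rw [← e]
    rfl
  choose D hD using key
  exact ⟨D, hD⟩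

theorem classes {s : ℤ} (hs : s = 1 ∨ s = -1) : ∃ E : ℤ → ℝ, (∀ a : ℤ, HasD s (Mg (Td 1) a) (E a) ∧
    (0 < s * a → 0 < E a)) ∧ HasSum (fun a : {a : ℤ // Pool.Agent.H499R2.ND.IsRp 1 s a} => E a) 1 := by
  obtain ⟨δ, h1, _, _, h4⟩ := Pool.Agent.H499R2.ND.structure_d (d := 1)
      odd_one (by decide) hs
  refine ⟨δ, fun a => ⟨Pool.Agent.H499R2.ND.HD_ncard hs (h1 a).2, fun ha => ?_⟩, h4⟩
  exact Pool.Agent.H499R2.ND.one_pos hs (Pool.Agent.H499R2.ND.Mg_inv 1 a)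
    (Pool.Agent.H499R2.ND.Mg_self _ a) ha (h1 a).2

/-- from the shortcut map to the Collatz map -/
theorem to_Cz {d : ℤ} (hd : d = 1 ∨ d = -1) {Y : ℝ} (k : ℕ) : ∀ n : ℤ, 1 ≤ n →
    (∀ i ≤ k, Y ≤ (((Td d)^[i] n : ℤ) : ℝ)) →
    ∃ j : ℕ, (R344.TH.Cz d)^[j] n = (Td d)^[k] n ∧ ∀ i ≤ j, Y ≤ (((R344.TH.Cz d)^[i] n : ℤ) : ℝ) := by
  induction k with
  | zero =>
    intro n hn h
    refine ⟨0, rfl, fun i hi => ?_⟩
    obtain rfl : i = 0 := by omega
    exact h 0 le_rfl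
  | succ k ih =>
    intro n hn h
    have h0 := h 0 (Nat.zero_le _)
    rw [Function.iterate_zero, id] at h0
    have hT1 : 1 ≤ Td d n := by
      unfold Td
      rcases hd with rfl | rfl <;> split_ifs with h <;> omega
    obtain ⟨j, hj1, hj2⟩ := ih (Td d n) hT1 (fun i hi => by
      have := h (i + 1) (by omega)
      rwa [Function.iterate_succ_apply] at this)
    by_cases he : n % 2 = 0
    · have e1 : R344.TH.Cz d n = Td d n := by unfold R344.TH.Cz Td; rw [if_pos he, if_pos he]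
      refine ⟨j + 1, ?_, ?_⟩
      · rw [Function.iterate_succ_apply, e1, hj1, Function.iterate_succ_apply]
      · intro i hi
        rcases i with _ | i
        · exact h0
        · rw [Function.iterate_succ_apply, e1]
          exact hj2 i (by omega)
    · have e1 : R344.TH.Cz d n = 3 * n + d := by unfold R344.TH.Cz; rw [if_neg he]
      have e2 : R344.TH.Cz d (3 * n + d) = Td d n := by
        unfold R344.TH.Cz Td
        rw [if_neg he]
        rcases hd with rfl | rfl <;> rw [if_pos (by omega)]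
      refine ⟨j + 2, ?_, ?_⟩
      · rw [Function.iterate_succ_apply, Function.iterate_succ_apply, e1, e2, hj1,
          Function.iterate_succ_apply]
      · intro i hi
        rcases i with _ | _ | i
        · exact h0
        · rw [zero_add, Function.iterate_one, e1]
          refine h0.trans ?_
          have : n ≤ 3 * n + d := by rcases hd with rfl | rfl <;> omega
          exact_mod_cast this
        · rw [Function.iterate_succ_apply, Function.iterate_succ_apply, e1, e2]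
          exact hj2 i (by omega)

/-- UNIFORM ANTI-CONCENTRATION -/
theorem anti {s : ℤ} (hs : s = 1 ∨ s = -1) (B : ℕ) : ∃ K : ℝ, 0 < K ∧ ∀ (y : ℝ) (a : ℤ), 2 ≤ y →
    (∀ x : ℤ, 0 < s * x → Rch x a → y ≤ |(x : ℝ)|) → ∀ N : ℕ,
      ct s (Pd a) N ≤ K * N / (Real.log y) ^ B := by
  classical
  have hso : Odd s := by rcases hs with rfl | rfl <;> decide
  have hsc : IsCoprime s 3 := by
    rcases hs with rfl | rfl
    · exact isCoprime_one_left
    · exact isCoprime_one_left.neg_left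
  obtain ⟨K, hK, h⟩ := R344.TH.thin_Cz (d := s) hso hsc (δ := 1) one_pos B
  refine ⟨K, hK, fun y a hy ha N => ?_⟩
  have h1 := h y hy {s * a} (by
    intro X hX
    have hX0 : 0 < X := by linarith
    rw [Real.rpow_one, Real.exp_neg, Real.exp_log hX0, mul_inv_cancel₀ hX0.ne']
    have : (R344.TH.fA {s * a} y X).card ≤ 1 := by
      rw [Finset.card_le_one]
      intro p hp q hq
      rw [R344.TH.mem_fA] at hp hq
      rw [hp.2, hq.2]
    exact_mod_cast this) N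
  refine le_trans ?_ h1
  rw [ct_nat hs]
  have hsub : (fun n : ℕ => (n : ℤ)) '' {n : ℕ | 1 ≤ n ∧ n ≤ N ∧ s * (n : ℤ) ∈ Pd a} ⊆
      (((Finset.Icc (1 : ℤ) N).filter (fun n => ∃ k : ℕ, (R344.TH.Cz s)^[k] n ∈ ({s * a} : Set ℤ) ∧
        ∀ j ≤ k, y ≤ (((R344.TH.Cz s)^[j] n : ℤ) : ℝ)) : Finset ℤ) : Set ℤ) := by
    rintro _ ⟨n, ⟨hn1, hn2, k, hk⟩, rfl⟩
    rw [Finset.mem_coe, Finset.mem_filter, Finset.mem_Icc]
    have hn1' : (1 : ℤ) ≤ (n : ℤ) := by exact_mod_cast hn1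
    have hn2' : (n : ℤ) ≤ (N : ℤ) := by exact_mod_cast hn2
    refine ⟨⟨hn1', hn2'⟩, ?_⟩
    have hside : ∀ i : ℕ, (Td s)^[i] (n : ℤ) = s * (Td 1)^[i] (s * n) := by
      intro i
      have := Pool.Agent.H499R2.ND.Td_side (d := 1) odd_one hs i (n : ℤ)
      rwa [mul_one] at this
    have hpos : 0 < s * (s * (n : ℤ)) := by rw [ss hs]; omega
    obtain ⟨j, hj1, hj2⟩ := to_Cz hs (Y := y) k (n : ℤ) (by omega) (by
      intro i hi
      rw [hside]
      have hsg : 0 < s * (Td 1)^[i] (s * (n : ℤ)) :=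
        (Pool.Agent.H499R2.ND.Td_one_iter_sign hs _ i).1 hpos
      have h2 := ha ((Td 1)^[i] (s * (n : ℤ))) hsg (by
        refine ⟨k - i, ?_⟩
        rw [← Function.iterate_add_apply, Nat.sub_add_cancel hi]
        exact hk)
      refine h2.trans (le_of_eq ?_)
      have h3 : |(Td 1)^[i] (s * (n : ℤ))| = s * (Td 1)^[i] (s * (n : ℤ)) := by
        rcases hs with rfl | rfl
        · rw [abs_of_pos (by simpa using hsg)]; ring
        · rw [abs_of_neg (by linarith)]; ring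
      exact_mod_cast h3)
    refine ⟨j, ?_, hj2⟩
    rw [hj1, hside, hk, Set.mem_singleton_iff]
  have h2 := Set.ncard_le_ncard hsub (Finset.finite_toSet _)
  rw [Set.ncard_image_of_injective _ Nat.cast_injective, Set.ncard_coe_finset] at h2
  exact_mod_cast h2

theorem anti_D {s : ℤ} (hs : s = 1 ∨ s = -1) (B : ℕ) : ∃ K : ℝ, 0 < K ∧ ∀ (y : ℝ) (a : ℤ) (l : ℝ), 2 ≤ y →
    (∀ x : ℤ, 0 < s * x → Rch x a → y ≤ |(x : ℝ)|) → HasD s (Pd a) l →
      l ≤ K / (Real.log y) ^ B := by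
  obtain ⟨K, hK, h⟩ := anti hs B
  refine ⟨K, hK, fun y a l hy ha hl => ?_⟩
  apply le_of_tendsto hl
  filter_upwards [eventually_gt_atTop 0] with N hN
  have hN' : (0 : ℝ) < N := by exact_mod_cast hN
  rw [div_le_iff₀ hN']
  refine (h y a hy ha N).trans (le_of_eq ?_)
  ring

/-- density of a set whose trajectories stay above `y` -/
theorem stay_D {s : ℤ} (hs : s = 1 ∨ s = -1) (B : ℕ) : ∃ K : ℝ, 0 < K ∧ ∀ (y : ℝ) (S : Set ℤ) (l : ℝ), 2 ≤ y →
    (∀ x ∈ S, ∀ k : ℕ, y < |(((Td 1)^[k] x : ℤ) : ℝ)|) → HasD s S l → l ≤ K / (Real.log y) ^ B := by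
  obtain ⟨K, hK, h⟩ := Pool.Agent.H499R2.ND.stay_side B (d := 1) odd_one
    isCoprime_one_left hs
  refine ⟨2 * K, by linarith, fun y S l hy hS hl => ?_⟩
  have hlog : 0 < Real.log y := Real.log_pos (by linarith)
  apply le_of_tendsto hl
  filter_upwards [eventually_gt_atTop 0] with N hN
  have hN' : (1 : ℝ) ≤ N := by exact_mod_cast hN
  rw [div_le_iff₀ (by linarith)]
  have h1 := h y hy ((N : ℝ) + 1) (by linarith)
  rw [← Pool.Agent.H499R2.ND.ncard_side hs] at h1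
  have h2 : ct s S N ≤ ct s (Pool.Agent.H499R2.ND.Stay 1 y) N := ct_mono hs N fun n _ hn => hS n hn
  refine h2.trans (le_trans h1 ?_)
  rw [div_mul_eq_mul_div]
  apply div_le_div_of_nonneg_right _ (by positivity)
  nlinarith

end Pool.Agent.U59.DIV
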