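import Pool.Agent.U59.DIV.A

/-! The densities of the predecessor sets see the divergent trajectories. -/

set_option autoImplicit false

namespace Pool.Agent.U59.DIV

open Filter Topology

open Pool.Agent.H499R2.ND (Td Mg IsRp)

/-! ### divergent trajectories -/

theorem Dv_iter (n : ℤ) (k : ℕ) : Dv n ↔ Dv ((Td 1)^[k] n) := by
  unfold Dv
  have : (fun j : ℕ => |(Td 1)^[j] ((Td 1)^[k] n)|) = fun j : ℕ => (fun j : ℕ => |(Td 1)^[j] n|) (j + k) := by
    funext j; rw [← Function.iterate_add_apply]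
  rw [this, tendsto_add_atTop_iff_nat (f := fun j : ℕ => |(Td 1)^[j] n|) k]

theorem Dv_mg {a b : ℤ} (h : b ∈ Mg (Td 1) a) : Dv b ↔ Dv a := by
  obtain ⟨i, j, hij⟩ := h
  rw [Dv_iter b i, hij, ← Dv_iter a j]

theorem per_finite {z : ℤ} {i j : ℕ} (hij : i < j) (h : (Td 1)^[i] z = (Td 1)^[j] z) :
    (Set.range fun k : ℕ => (Td 1)^[k] z).Finite := by
  classical
  apply ((Finset.range j).image (fun k => (Td 1)^[k] z)).finite_toSet.subset
  rintro _ ⟨k, rfl⟩
  rw [Finset.mem_coe, Finset.mem_image]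
  induction k using Nat.strong_induction_on with
  | _ k ih =>
    rcases lt_or_ge k j with hk | hk
    · exact ⟨k, Finset.mem_range.2 hk, rfl⟩
    · obtain ⟨l, hl, hl2⟩ := ih (k - j + i) (by omega)
      refine ⟨l, hl, hl2.trans ?_⟩
      change (Td 1)^[k - j + i] z = (Td 1)^[k] z
      rw [Function.iterate_add_apply, h, ← Function.iterate_add_apply]
      congr 2
      omega

theorem abs_cof : Tendsto (fun x : ℤ => |x|) cofinite atTop := by
  rw [Int.cofinite_eq]
  exact tendsto_abs_atBot_atTop.sup tendsto_abs_atTop_atTop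

theorem not_dv_finite {z : ℤ} (h : ¬ Dv z) : (Set.range fun k : ℕ => (Td 1)^[k] z).Finite := by
  by_cases hinj : Function.Injective fun k : ℕ => (Td 1)^[k] z
  · exfalso
    apply h
    have h1 := hinj.tendsto_cofinite
    rw [Nat.cofinite_eq_atTop] at h1
    exact abs_cof.comp h1
  · unfold Function.Injective at hinj
    push Not at hinj
    obtain ⟨i, j, h1, h2⟩ := hinj
    rcases lt_or_gt_of_ne h2 with h3 | h3
    · exact per_finite h3 h1
    · exact per_finite h3 h1.symm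

theorem Dv.injective {z : ℤ} (h : Dv z) : Function.Injective fun k : ℕ => (Td 1)^[k] z := by
  by_contra hinj
  unfold Function.Injective at hinj
  push Not at hinj
  obtain ⟨i, j, h1, h2⟩ := hinj
  have hfin : (Set.range fun k : ℕ => (Td 1)^[k] z).Finite := by
    rcases lt_or_gt_of_ne h2 with h3 | h3
    · exact per_finite h3 h1
    · exact per_finite h3 h1.symm
  obtain ⟨M, hM⟩ := (hfin.image fun x : ℤ => |x|).bddAbove
  obtain ⟨k, hk⟩ := (tendsto_atTop.1 h (M + 1)).exists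
  have : |(Td 1)^[k] z| ≤ M := hM ⟨_, ⟨k, rfl⟩, rfl⟩
  linarith

/-! ### multiples of three -/

theorem pred_three (k : ℕ) : ∀ a x : ℤ, (3 : ℤ) ∣ a → (Td 1)^[k] x = a → ∃ j : ℕ, x = 2 ^ j * a := by
  induction k with
  | zero => intro a x _ h; exact ⟨0, by simpa using h⟩
  | succ k ih =>
    intro a x h3 h
    rw [Function.iterate_succ_apply'] at h
    set w := (Td 1)^[k] x with hw
    have hw2 : w = 2 * a := by
      unfold Td at h
      split_ifs at h with he
      · omega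
      · exfalso; omega
    obtain ⟨j, hj⟩ := ih (2 * a) x (h3.mul_left 2) (hw ▸ hw2)
    exact ⟨j + 1, by rw [hj, pow_succ]; ring⟩

theorem D_three {s : ℤ} {a : ℤ} (ha : 0 < s * a) (h3 : (3 : ℤ) ∣ a) :
    HasD s (Pd a) 0 := by
  have hb : ∀ N : ℕ, ct s (Pd a) N ≤ (Nat.log 2 N : ℝ) + 1 := by
    intro N
    unfold ct
    have h1 : {n : ℤ | 0 < s * n ∧ s * n ≤ N ∧ n ∈ Pd a} ⊆
        (fun j : ℕ => 2 ^ j * a) '' (Set.Iio (Nat.log 2 N + 1)) := by
      rintro n ⟨h1, h2, k, hk⟩
      obtain ⟨j, rfl⟩ := pred_three k a n h3 hk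
      refine ⟨j, ?_, rfl⟩
      rw [Set.mem_Iio, Nat.lt_succ_iff]
      have h4 : (2 : ℤ) ^ j ≤ N := by
        calc (2 : ℤ) ^ j = 2 ^ j * 1 := (mul_one _).symm
          _ ≤ 2 ^ j * (s * a) := mul_le_mul_of_nonneg_left (by omega) (by positivity)
          _ = s * (2 ^ j * a) := by ring
          _ ≤ N := h2
      have h5 : 2 ^ j ≤ N := by exact_mod_cast h4
      exact Nat.le_log_of_pow_le (by norm_num) h5
    have h2 := (Set.ncard_le_ncard h1 ((Set.finite_Iio _).image _)).trans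
      (Set.ncard_image_le (Set.finite_Iio _))
    have h3 : (Set.Iio (Nat.log 2 N + 1)).ncard = Nat.log 2 N + 1 := by
      rw [← Finset.coe_Iio, Set.ncard_coe_finset]; simp
    rw [h3] at h2
    exact_mod_cast h2
  have hlim : Tendsto (fun N : ℕ => ((Nat.log 2 N : ℝ) + 1) / N) atTop (𝓝 0) := by
    have h1 : Tendsto (fun N : ℕ => (Real.log (N : ℝ) / (N : ℝ)) / Real.log 2 + 1 / (N : ℝ)) atTop (𝓝 (0 / Real.log 2 + 0)) := by
      apply Tendsto.add
      · apply Tendsto.div_const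
        have := Real.isLittleO_log_id_atTop.tendsto_div_nhds_zero
        exact this.comp tendsto_natCast_atTop_atTop
      · exact tendsto_one_div_atTop_nhds_zero_nat
    rw [zero_div, add_zero] at h1
    refine squeeze_zero' (Eventually.of_forall fun N => by positivity) ?_ h1
    filter_upwards [eventually_gt_atTop 0] with N hN
    have hN' : (0 : ℝ) < N := by exact_mod_cast hN
    have h2 : (Nat.log 2 N : ℝ) ≤ Real.log N / Real.log 2 := by
      have := Real.natLog_le_logb N 2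
      simpa [Real.logb] using this
    rw [add_div]
    apply add_le_add _ le_rfl
    rw [div_right_comm]
    exact div_le_div_of_nonneg_right h2 hN'.le
  refine squeeze_zero (fun N => div_nonneg (ct_nonneg s _ N) (Nat.cast_nonneg N)) (fun N => ?_) hlim
  exact div_le_div_of_nonneg_right (hb N) (Nat.cast_nonneg N)

/-! ### along a trajectory -/

theorem exists_y {K ε : ℝ} (hK : 0 < K) (hε : 0 < ε) : ∃ y : ℝ, 2 ≤ y ∧ K / Real.log y < ε := by
  refine ⟨Real.exp (K / ε + 1), ?_, ?_⟩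
  · have h1 := Real.add_one_le_exp (K / ε + 1)
    have h2 : 0 < K / ε := by positivity
    linarith
  · have h2 : 0 < K / ε := by positivity
    rw [Real.log_exp, div_lt_iff₀ (by linarith)]
    have h3 : ε * (K / ε) = K := by field_simp
    nlinarith

theorem Pd_mg (a : ℤ) (k : ℕ) : Pd ((Td 1)^[k] a) ⊆ Mg (Td 1) a := by
  rintro x ⟨i, hi⟩
  exact ⟨i, k, hi⟩

variable {s : ℤ} {D E : ℤ → ℝ}

theorem D_le_E (hs : s = 1 ∨ s = -1) (hD : ∀ a, HasD s (Pd a) (D a))
    (hE : ∀ a, HasD s (Mg (Td 1) a) (E a)) {a z : ℤ} (h : Rch z a) : D a ≤ E z := by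
  obtain ⟨k, rfl⟩ := h
  exact (hD _).le hs (hE z) (fun n _ hn => Pd_mg z k hn)

theorem E_mg (hE : ∀ a, HasD s (Mg (Td 1) a) (E a)) {a b : ℤ} (h : b ∈ Mg (Td 1) a) : E b = E a := by
  have h1 := hE b
  rw [Mg_eq h] at h1
  exact h1.unique (hE a)

/-- the densities along a trajectory increase to the density of the class -/
theorem along (hs : s = 1 ∨ s = -1) (hD : ∀ a, HasD s (Pd a) (D a))
    (hE : ∀ a, HasD s (Mg (Td 1) a) (E a)) (a : ℤ) :
    Monotone (fun k : ℕ => D ((Td 1)^[k] a)) ∧ Tendsto (fun k : ℕ => D ((Td 1)^[k] a)) atTop (𝓝 (E a)) := by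
  refine ⟨fun k l h => (hD _).le hs (hD _) (fun n _ hn => Pd_mono a h hn), ?_⟩
  obtain ⟨K, hK, h⟩ := stay_D hs 1
  rw [Metric.tendsto_atTop]
  intro ε hε
  obtain ⟨y, hy, hyε⟩ := exists_y hK hε
  have hfin : {z : ℤ | |(z : ℝ)| ≤ y ∧ z ∈ Mg (Td 1) a}.Finite := by
    apply (Set.finite_Icc (-⌊y⌋) ⌊y⌋).subset
    rintro z ⟨hz, _⟩
    have h1 : |z| ≤ ⌊y⌋ := by rw [Int.le_floor]; exact_mod_cast hz
    exact ⟨(abs_le.1 h1).1, (abs_le.1 h1).2⟩
  have hev : ∀ᶠ k : ℕ in atTop, ∀ z ∈ hfin.toFinset, z ∈ Pd ((Td 1)^[k] a) := by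
    rw [eventually_all_finset]
    intro z hz
    rw [Set.Finite.mem_toFinset] at hz
    obtain ⟨_, i, j, hij⟩ := hz
    filter_upwards [eventually_ge_atTop j] with k hk
    apply Pd_mono a hk
    exact ⟨i, hij⟩
  obtain ⟨k0, hk0⟩ := eventually_atTop.1 hev
  refine ⟨k0, fun k hk => ?_⟩
  have h1 := (hD ((Td 1)^[k] a)).diff hs (hE a) (Pd_mg a k)
  have h2 := h y _ _ hy (by
    rintro x ⟨hx1, hx2⟩ i
    by_contra hcon
    push Not at hcon
    apply hx2
    have h3 : (Td 1)^[i] x ∈ Mg (Td 1) a := (Pool.Agent.H499R2.ND.Mg_iter _ a x i).1 hx1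
    have h4 := hk0 k hk _ (hfin.mem_toFinset.2 ⟨hcon, h3⟩)
    exact Rch.trans (Rch.iter x i) h4) h1
  rw [pow_one] at h2
  have h5 := h1.nonneg
  rw [Real.dist_eq, abs_sub_comm, abs_of_nonneg h5]
  linarith

/-- the structure of the set of the integers with large density -/
theorem large (hs : s = 1 ∨ s = -1) (hD : ∀ a, HasD s (Pd a) (D a))
    (hE : ∀ a, HasD s (Mg (Td 1) a) (E a))
    (hsum : HasSum (fun a : {a : ℤ // IsRp 1 s a} => E a) 1) {ε : ℝ} (hε : 0 < ε) :
    ∃ F R : Finset ℤ, (∀ r ∈ R, IsRp 1 s r ∧ Dv r ∧ ε ≤ E r) ∧ (R.card : ℝ) * ε ≤ 1 ∧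
      ∀ a : ℤ, 0 < s * a → ε ≤ D a → a ∈ F ∨ ∃ r ∈ R, Rch r a := by
  classical
  obtain ⟨K, hK, h⟩ := anti_D hs 1
  obtain ⟨y, hy, hyε⟩ := exists_y hK hε
  set Z : Set ℤ := {z : ℤ | 0 < s * z ∧ |(z : ℝ)| < y} with hZ
  have hZf : Z.Finite := by
    apply (Set.finite_Icc (-⌊y⌋) ⌊y⌋).subset
    rintro z ⟨_, hz⟩
    have h1 : |z| ≤ ⌊y⌋ := by rw [Int.le_floor]; exact_mod_cast hz.le
    exact ⟨(abs_le.1 h1).1, (abs_le.1 h1).2⟩
  have hcov : ∀ a : ℤ, 0 < s * a → ε ≤ D a → ∃ z ∈ Z, Rch z a := by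
    intro a _ hDa
    by_contra hcon
    push Not at hcon
    have h1 := h y a (D a) hy (by
      intro x hx hxa
      by_contra hlt
      push Not at hlt
      exact hcon x ⟨hx, hlt⟩ hxa) (hD a)
    rw [pow_one] at h1
    linarith
  have hRf : (Z ∩ {r : ℤ | IsRp 1 s r ∧ Dv r ∧ ε ≤ E r}).Finite := hZf.inter_of_left _
  set R : Finset ℤ := hRf.toFinset with hR
  have hRm : ∀ r : ℤ, r ∈ R ↔ r ∈ Z ∧ IsRp 1 s r ∧ Dv r ∧ ε ≤ E r := by
    intro r
    rw [hR, Set.Finite.mem_toFinset]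
    rfl
  have hFf : (⋃ z ∈ Z, {a : ℤ | Rch z a ∧ ε ≤ D a ∧ ¬ ∃ r ∈ R, Rch r a}).Finite := by
    apply hZf.biUnion
    intro z hz
    by_cases hdz : Dv z
    · by_cases hEz : ε ≤ E z
      · obtain ⟨b, hb1, hb2, hb3⟩ := Pool.Agent.H499R2.ND.exists_rep (d := 1) hs hz.1
        have hbR : b ∈ R := by
          rw [hRm]
          refine ⟨⟨hb1.1, ?_⟩, hb1, (Dv_mg hb2).2 hdz, ?_⟩
          · have h1 : |b| ≤ |z| := by
              have hz1 := hz.1
              have hb0 := hb1.1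
              rcases hs with rfl | rfl
              · rw [abs_of_pos (by linarith), abs_of_pos (by linarith)]; linarith
              · rw [abs_of_neg (by linarith), abs_of_neg (by linarith)]; linarith
            have h2 : |(b : ℝ)| ≤ |(z : ℝ)| := by exact_mod_cast h1
            exact lt_of_le_of_lt h2 hz.2
          · rw [E_mg hE hb2]; exact hEz
        obtain ⟨i, j, hij⟩ := hb2
        apply ((Finset.range j).image (fun k => (Td 1)^[k] z)).finite_toSet.subset
        rintro a ⟨⟨k, rfl⟩, _, h3⟩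
        rw [Finset.mem_coe, Finset.mem_image]
        refine ⟨k, ?_, rfl⟩
        rw [Finset.mem_range]
        by_contra hk
        push Not at hk
        apply h3
        refine ⟨b, hbR, k - j + i, ?_⟩
        rw [Function.iterate_add_apply, hij, ← Function.iterate_add_apply, Nat.sub_add_cancel hk]
      · convert Set.finite_empty
        rw [Set.eq_empty_iff_forall_notMem]
        rintro a ⟨h1, h2, _⟩
        exact hEz (h2.trans (D_le_E hs hD hE h1))
    · apply (not_dv_finite hdz).subset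
      rintro a ⟨⟨k, rfl⟩, _⟩
      exact ⟨k, rfl⟩
  refine ⟨hFf.toFinset, R, fun r hr => ((hRm r).1 hr).2, ?_, ?_⟩
  · have h1 : ∑ r ∈ R, E r ≤ 1 := by
      have h2 := sum_le_hasSum (R.subtype (IsRp 1 s)) (fun i _ => (hE i.1).nonneg) hsum
      rwa [Finset.sum_subtype_of_mem (f := E) (fun x hx => ((hRm x).1 hx).2.1)] at h2
    have h2 := Finset.card_nsmul_le_sum R E ε (fun r hr => ((hRm r).1 hr).2.2.2)
    rw [nsmul_eq_mul] at h2
    linarith
  · intro a ha hDa
    by_cases hr : ∃ r ∈ R, Rch r a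
    · exact Or.inr hr
    · left
      rw [Set.Finite.mem_toFinset]
      obtain ⟨z, hz, hza⟩ := hcov a ha hDa
      exact Set.mem_biUnion hz ⟨hza, hDa, hr⟩

/-- the limit points of the densities -/
theorem limits (hs : s = 1 ∨ s = -1) (hD : ∀ a, HasD s (Pd a) (D a))
    (hE : ∀ a, HasD s (Mg (Td 1) a) (E a))
    (hsum : HasSum (fun a : {a : ℤ // IsRp 1 s a} => E a) 1) {L : ℝ} (hL : 0 < L) :
    (∃ u : ℕ → ℤ, Function.Injective u ∧ (∀ n, 0 < s * u n) ∧ Tendsto (fun n => D (u n)) atTop (𝓝 L)) ↔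
      ∃ n : ℤ, 0 < s * n ∧ Dv n ∧ E n = L := by
  classical
  constructor
  · rintro ⟨u, hu, hus, hlim⟩
    obtain ⟨F, R, hR, _, hFR⟩ := large hs hD hE hsum (half_pos hL)
    have h1 : ∀ᶠ n in atTop, L / 2 ≤ D (u n) := by
      have := hlim.eventually (lt_mem_nhds (half_lt_self hL))
      exact this.mono fun n hn => le_of_lt hn
    have h2 : ∀ᶠ n in atTop, u n ∉ F := by
      have h3 := hu.tendsto_cofinite
      rw [Nat.cofinite_eq_atTop] at h3
      exact h3.eventually F.finite_toSet.compl_mem_cofinite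
    have h3 : ∀ᶠ n in atTop, ∃ r ∈ R, Rch r (u n) := by
      filter_upwards [h1, h2] with n hn1 hn2
      exact (hFR (u n) (hus n) hn1).resolve_left hn2
    have h4 : ∃ r ∈ R, ∃ᶠ n in atTop, Rch r (u n) := by
      by_contra hcon
      push Not at hcon
      have h5 : ∀ᶠ n in atTop, ∀ r ∈ R, ¬ Rch r (u n) := by
        rw [eventually_all_finset]
        exact hcon
      obtain ⟨n, hn1, hn2⟩ := (h3.and h5).exists
      obtain ⟨r, hr, hrn⟩ := hn1
      exact hn2 r hr hrn
    obtain ⟨r, hr, hfr⟩ := h4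
    obtain ⟨φ, hφ, hφr⟩ := Filter.extraction_of_frequently_atTop hfr
    choose g hg using hφr
    have hginj : Function.Injective g := by
      intro m n hmn
      apply hφ.injective
      apply hu
      rw [← hg m, ← hg n, hmn]
    have hgt : Tendsto g atTop atTop := by
      have := hginj.tendsto_cofinite
      rwa [Nat.cofinite_eq_atTop] at this
    have h5 := (along hs hD hE r).2.comp hgt
    have h6 : Tendsto (fun n => D (u (φ n))) atTop (𝓝 L) := hlim.comp hφ.tendsto_atTop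
    have h7 : E r = L := by
      refine tendsto_nhds_unique h5 (h6.congr fun n => ?_)
      change D (u (φ n)) = D ((Td 1)^[g n] r)
      rw [hg n]
    exact ⟨r, (hR r hr).1.1, (hR r hr).2.1, h7⟩
  · rintro ⟨n, hn, hdv, rfl⟩
    refine ⟨fun k => (Td 1)^[k] n, hdv.injective, fun k => ?_, (along hs hD hE n).2⟩
    exact (Pool.Agent.H499R2.ND.Td_one_iter_sign hs n k).1 hn

/-- no divergent trajectories iff the densities tend to zero -/
theorem dichotomy (hs : s = 1 ∨ s = -1) (hD : ∀ a, HasD s (Pd a) (D a))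
    (hE : ∀ a, HasD s (Mg (Td 1) a) (E a)) (hE0 : ∀ a, 0 < s * a → 0 < E a)
    (hsum : HasSum (fun a : {a : ℤ // IsRp 1 s a} => E a) 1) :
    (∀ n : ℤ, 0 < s * n → ¬ Dv n) ↔ ∀ ε : ℝ, 0 < ε → ∃ A : ℤ, ∀ a : ℤ, A < s * a → D a < ε := by
  constructor
  · intro hno ε hε
    obtain ⟨F, R, hR, _, hFR⟩ := large hs hD hE hsum hε
    refine ⟨∑ f ∈ F, |f|, fun a ha => ?_⟩
    have hsa : 0 < s * a := lt_of_le_of_lt (Finset.sum_nonneg fun _ _ => abs_nonneg _) ha
    by_contra hcon
    push Not at hcon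
    rcases hFR a hsa hcon with h1 | ⟨r, hr, _⟩
    · have h2 := Finset.single_le_sum (f := fun f : ℤ => |f|) (fun _ _ => abs_nonneg _) h1
      have h3 : s * a ≤ |a| := by
        rcases hs with rfl | rfl
        · rw [one_mul]; exact le_abs_self a
        · rw [neg_one_mul]; exact neg_le_abs a
      omega
    · exact hno r (hR r hr).1.1 (hR r hr).2.1
  · intro h n hn hdv
    obtain ⟨A, hA⟩ := h (E n / 2) (half_pos (hE0 n hn))
    have h1 := (along hs hD hE n).2.eventually (lt_mem_nhds (half_lt_self (hE0 n hn)))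
    have h2 : ∀ᶠ k : ℕ in atTop, A + 1 ≤ |(Td 1)^[k] n| := tendsto_atTop.1 hdv (A + 1)
    obtain ⟨k, hk1, hk2⟩ := (h1.and h2).exists
    have h3 : 0 < s * (Td 1)^[k] n := (Pool.Agent.H499R2.ND.Td_one_iter_sign hs n k).1 hn
    have h4 : |(Td 1)^[k] n| = s * (Td 1)^[k] n := by
      rcases hs with rfl | rfl
      · rw [abs_of_pos (by linarith)]; ring
      · rw [abs_of_neg (by linarith)]; ring
    have h5 := hA ((Td 1)^[k] n) (by rw [← h4]; omega)
    linarith

/-- a sequence of distinct integers has densities tending to zero iff every integer reaches only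
finitely many of its terms -/
theorem null_seq (hs : s = 1 ∨ s = -1) (hD : ∀ a, HasD s (Pd a) (D a))
    (hE : ∀ a, HasD s (Mg (Td 1) a) (E a)) (hE0 : ∀ a, 0 < s * a → 0 < E a) {u : ℕ → ℤ}
    (hu : Function.Injective u) :
    Tendsto (fun n => D (u n)) atTop (𝓝 0) ↔ ∀ x : ℤ, 0 < s * x → {n : ℕ | Rch x (u n)}.Finite := by
  constructor
  · intro hlim x hx
    by_contra hinf
    have hfr : ∃ᶠ n in atTop, Rch x (u n) := Nat.frequently_atTop_iff_infinite.2 hinf
    obtain ⟨φ, hφ, hφr⟩ := Filter.extraction_of_frequently_atTop hfr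
    choose g hg using hφr
    have hginj : Function.Injective g := by
      intro m n hmn
      apply hφ.injective
      apply hu
      rw [← hg m, ← hg n, hmn]
    have hgt : Tendsto g atTop atTop := by
      have := hginj.tendsto_cofinite
      rwa [Nat.cofinite_eq_atTop] at this
    have h5 := (along hs hD hE x).2.comp hgt
    have h6 : Tendsto (fun n => D (u (φ n))) atTop (𝓝 0) := hlim.comp hφ.tendsto_atTop
    have h7 : E x = 0 := by
      refine tendsto_nhds_unique h5 (h6.congr fun n => ?_)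
      change D (u (φ n)) = D ((Td 1)^[g n] x)
      rw [hg n]
    have := hE0 x hx
    linarith
  · intro h
    obtain ⟨K, hK, hanti⟩ := anti_D hs 1
    rw [Metric.tendsto_atTop]
    intro ε hε
    obtain ⟨y, hy, hyε⟩ := exists_y hK hε
    have hfin : {z : ℤ | 0 < s * z ∧ |(z : ℝ)| < y}.Finite := by
      apply (Set.finite_Icc (-⌊y⌋) ⌊y⌋).subset
      rintro z ⟨_, hz⟩
      have h1 : |z| ≤ ⌊y⌋ := by rw [Int.le_floor]; exact_mod_cast hz.le
      exact ⟨(abs_le.1 h1).1, (abs_le.1 h1).2⟩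
    have hev : ∀ᶠ n : ℕ in atTop, ∀ z ∈ hfin.toFinset, ¬ Rch z (u n) := by
      rw [eventually_all_finset]
      intro z hz
      rw [Set.Finite.mem_toFinset] at hz
      have h1 := h z hz.1
      rw [← Set.not_infinite, ← Nat.frequently_atTop_iff_infinite, Filter.not_frequently] at h1
      exact h1
    obtain ⟨n0, hn0⟩ := eventually_atTop.1 hev
    refine ⟨n0, fun n hn => ?_⟩
    have h2 := hanti y (u n) (D (u n)) hy (by
      intro x hx hxa
      by_contra hlt
      push Not at hlt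
      exact hn0 n hn x (hfin.mem_toFinset.2 ⟨hx, hlt⟩) hxa) (hD _)
    rw [pow_one] at h2
    rw [Real.dist_eq, sub_zero, abs_of_nonneg (hD _).nonneg]
    linarith

end Pool.Agent.U59.DIV
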